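import Mathlib

set_option autoImplicit false

/-!
# Zero-sum-free sets of residues
-/

namespace Pool.Agent.U336.ZS

open Finset

/-- no nonempty subset of `S` has sum zero -/
def ZeroSumFree {m : ℕ} (S : Finset (ZMod m)) : Prop :=
  ∀ T : Finset (ZMod m), T ⊆ S → T.Nonempty → ∑ x ∈ T, x ≠ 0

/-- the largest size of a zero-sum-free set of residues modulo `m` -/
noncomputable def k (m : ℕ) : ℕ := sSup {n | ∃ S : Finset (ZMod m), ZeroSumFree S ∧ S.card = n}

/-- `S` is a realizing set for `m` -/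
def Realizing {m : ℕ} (S : Finset (ZMod m)) : Prop := ZeroSumFree S ∧ S.card = k m

/-- the number `b(m)` -/
noncomputable def b (m : ℕ) : ℕ := ⌊(-1 + Real.sqrt (8 * m + 9)) / 2⌋₊

/-- the set `E` of all `m ≥ 5` with `k(m) = b(m)` -/
def E : Set ℕ := {m | 5 ≤ m ∧ k m = b m}

lemma bdd {m : ℕ} [NeZero m] : BddAbove {n | ∃ S : Finset (ZMod m), ZeroSumFree S ∧ S.card = n} := by
  refine ⟨m, ?_⟩
  rintro n ⟨S, -, rfl⟩
  exact (card_le_univ S).trans (le_of_eq (ZMod.card m))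

lemma empty_free {m : ℕ} : ZeroSumFree (∅ : Finset (ZMod m)) := by
  intro T hT hne
  rw [subset_empty.1 hT] at hne
  exact absurd hne (by simp)

lemma card_le {m : ℕ} [NeZero m] {S : Finset (ZMod m)} (h : ZeroSumFree S) : S.card ≤ k m :=
  le_csSup bdd ⟨S, h, rfl⟩

lemma exists_realizing (m : ℕ) [NeZero m] : ∃ S : Finset (ZMod m), Realizing S := by
  have h := Nat.sSup_mem (s := {n | ∃ S : Finset (ZMod m), ZeroSumFree S ∧ S.card = n})
    ⟨0, ∅, empty_free, rfl⟩ bdd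
  exact h

lemma b_sq (m : ℕ) : b m * (b m + 1) ≤ 2 * m + 2 := by
  have h1 : (b m : ℝ) ≤ (-1 + Real.sqrt (8 * m + 9)) / 2 := by
    apply Nat.floor_le
    have : (1 : ℝ) ≤ Real.sqrt (8 * m + 9) := by
      rw [Real.one_le_sqrt]
      have : (0 : ℝ) ≤ m := by positivity
      linarith
    linarith
  have h2 : 2 * (b m : ℝ) + 1 ≤ Real.sqrt (8 * m + 9) := by linarith
  have h3 : (2 * (b m : ℝ) + 1) ^ 2 ≤ 8 * m + 9 := by
    have h4 := Real.sq_sqrt (show (0 : ℝ) ≤ 8 * m + 9 by positivity)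
    nlinarith [Real.sqrt_nonneg (8 * (m : ℝ) + 9)]
  have h5 : (b m : ℝ) * (b m + 1) ≤ 2 * m + 2 := by nlinarith
  exact_mod_cast h5

lemma le_b {m c : ℕ} (h : (2 * c + 1) ^ 2 ≤ 8 * m + 9) : c ≤ b m := by
  apply Nat.le_floor
  have h1 : (2 * (c : ℝ) + 1) ≤ Real.sqrt (8 * m + 9) := by
    apply Real.le_sqrt_of_sq_le
    exact_mod_cast h
  linarith

lemma b_eq {m c : ℕ} (h : (2 * c + 1) ^ 2 ≤ 8 * m + 9) (h' : 2 * m + 2 < (c + 1) * (c + 2)) :
    b m = c := by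
  refine le_antisymm ?_ (le_b h)
  by_contra h1
  push Not at h1
  have h2 := b_sq m
  have h3 : (c + 1) * (c + 2) ≤ b m * (b m + 1) := Nat.mul_le_mul (by omega) (by omega)
  omega

/-- the integers `1, -2, 3, 4, …` -/
def psi (i : ℕ) : ℤ := if i = 2 then -2 else i

lemma psi_two : psi 2 = -2 := rfl

lemma psi_ne {i : ℕ} (h : i ≠ 2) : psi i = i := if_neg h

lemma sum_psi {m c : ℕ} (hc : c * (c + 1) ≤ 2 * m + 2) (hc2 : 2 ≤ c) (hm : 5 ≤ m) {J : Finset ℕ}
    (hJ : J ⊆ Icc 1 c) (hne : J.Nonempty) :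
    -(m : ℤ) < ∑ i ∈ J, psi i ∧ ∑ i ∈ J, psi i < m ∧ ∑ i ∈ J, psi i ≠ 0 := by
  have hI : ∑ i ∈ Icc 1 c, (i : ℤ) * 2 = c * (c + 1) := by
    have : ∀ c : ℕ, ∑ i ∈ Icc 1 c, (i : ℤ) * 2 = c * (c + 1) := by
      intro c
      induction c with
      | zero => simp
      | succ n ih =>
        rw [sum_Icc_succ_top (by omega), ih]
        push_cast
        ring
    exact this c
  have h2I : (2 : ℕ) ∈ Icc 1 c := by simp; omega
  have hI' : ∑ i ∈ (Icc 1 c).erase 2, (i : ℤ) ≤ m - 1 := by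
    have h1 : ∑ i ∈ (Icc 1 c).erase 2, (i : ℤ) + 2 = ∑ i ∈ Icc 1 c, (i : ℤ) := by
      rw [← sum_erase_add _ _ h2I]
      rfl
    rw [← sum_mul] at hI
    have h3 : ((c * (c + 1) : ℕ) : ℤ) ≤ ((2 * m + 2 : ℕ) : ℤ) := by exact_mod_cast hc
    push_cast at h3
    linarith
  have hP : ∑ i ∈ J.erase 2, psi i = ∑ i ∈ J.erase 2, (i : ℤ) :=
    sum_congr rfl fun i hi => psi_ne (ne_of_mem_erase hi)
  have hP1 : ∑ i ∈ J.erase 2, (i : ℤ) ≤ m - 1 :=
    (sum_le_sum_of_subset_of_nonneg (erase_subset_erase 2 hJ) (fun i _ _ => by positivity)).trans hI'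
  have hP0 : 0 ≤ ∑ i ∈ J.erase 2, (i : ℤ) := sum_nonneg fun i _ => by positivity
  by_cases h2 : 2 ∈ J
  · have h3 : ∑ i ∈ J, psi i = ∑ i ∈ J.erase 2, (i : ℤ) - 2 := by
      rw [← sum_erase_add _ _ h2, hP, psi_two]
      ring
    rw [h3]
    refine ⟨by have : (5 : ℤ) ≤ m := by exact_mod_cast hm
               linarith, by linarith, ?_⟩
    intro h4
    have h5 : ∑ i ∈ J.erase 2, (i : ℤ) = 2 := by linarith
    have h6 : ∀ i ∈ J.erase 2, i = 1 := by
      intro i hi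
      have h7 : (i : ℤ) ≤ ∑ i ∈ J.erase 2, (i : ℤ) :=
        single_le_sum (f := fun i : ℕ => (i : ℤ)) (fun i _ => by positivity) hi
      have h8 : i ≠ 2 := ne_of_mem_erase hi
      have h9 : 1 ≤ i := (mem_Icc.1 (hJ (mem_of_mem_erase hi))).1
      have h10 : (i : ℤ) ≤ 2 := by linarith
      have h11 : i ≤ 2 := by exact_mod_cast h10
      omega
    have h12 : J.erase 2 ⊆ {1} := fun i hi => mem_singleton.2 (h6 i hi)
    have h13 : ∑ i ∈ J.erase 2, (i : ℤ) ≤ ∑ i ∈ ({1} : Finset ℕ), (i : ℤ) :=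
      sum_le_sum_of_subset_of_nonneg h12 (fun i _ _ => by positivity)
    simp at h13
    linarith
  · have h3 : J.erase 2 = J := erase_eq_of_notMem h2
    rw [h3] at hP hP1 hP0
    rw [hP]
    obtain ⟨j, hj⟩ := hne
    have h4 : (j : ℤ) ≤ ∑ i ∈ J, (i : ℤ) :=
      single_le_sum (f := fun i : ℕ => (i : ℤ)) (fun i _ => by positivity) hj
    have h5 : 1 ≤ j := (mem_Icc.1 (hJ hj)).1
    have h6 : (1 : ℤ) ≤ j := by exact_mod_cast h5
    refine ⟨?_, by linarith, by linarith⟩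
    have : (0 : ℤ) ≤ m := by positivity
    linarith

lemma cast_ne {m : ℕ} {z : ℤ} (h1 : -(m : ℤ) < z) (h2 : z < m) (h3 : z ≠ 0) : (z : ZMod m) ≠ 0 := by
  intro h
  rw [ZMod.intCast_zmod_eq_zero_iff_dvd] at h
  exact h3 (Int.eq_zero_of_abs_lt_dvd h (abs_lt.2 ⟨h1, h2⟩))

lemma inj {m c : ℕ} (hc : c * (c + 1) ≤ 2 * m + 2) (hm : 6 ≤ m) :
    Set.InjOn (fun i : ℕ => ((psi i : ℤ) : ZMod m)) (Icc 1 c : Finset ℕ) := by
  have hcm : c + 3 ≤ m := by
    by_contra h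
    push Not at h
    have h1 : m - 2 ≤ c := by omega
    have h2 : (m - 2) * (m - 2 + 1) ≤ c * (c + 1) := Nat.mul_le_mul h1 (by omega)
    obtain ⟨t, rfl⟩ : ∃ t, m = t + 6 := ⟨m - 6, by omega⟩
    have h3 : (t + 6 - 2) = t + 4 := by omega
    rw [h3] at h2
    nlinarith
  intro i hi j hj hij
  simp only [coe_Icc, Set.mem_Icc] at hi hj
  have hij' : ((psi i - psi j : ℤ) : ZMod m) = 0 := by
    push_cast
    exact sub_eq_zero.2 hij
  by_contra hne
  have hm' : (c : ℤ) + 3 ≤ m := by exact_mod_cast hcm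
  have hi1 : (1 : ℤ) ≤ i := by exact_mod_cast hi.1
  have hi2 : (i : ℤ) ≤ c := by exact_mod_cast hi.2
  have hj1 : (1 : ℤ) ≤ j := by exact_mod_cast hj.1
  have hj2 : (j : ℤ) ≤ c := by exact_mod_cast hj.2
  refine cast_ne ?_ ?_ ?_ hij'
  · unfold psi
    split_ifs <;> linarith
  · unfold psi
    split_ifs <;> linarith
  · unfold psi
    split_ifs with h1 h2 h2
    · omega
    · intro h; linarith
    · intro h; linarith
    · intro h
      have : (i : ℤ) = j := by linarith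
      exact hne (by exact_mod_cast this)

/-- the set `{1, -2, 3, 4, …, c}` -/
def S0 (m c : ℕ) : Finset (ZMod m) := (Icc 1 c).image (fun i : ℕ => ((psi i : ℤ) : ZMod m))

lemma S0_free {m c : ℕ} (hc : c * (c + 1) ≤ 2 * m + 2) (hc2 : 2 ≤ c) (hm : 6 ≤ m) :
    ZeroSumFree (S0 m c) := by
  intro T hT hne
  set J := (Icc 1 c).filter (fun i : ℕ => ((psi i : ℤ) : ZMod m) ∈ T) with hJ
  have h1 : T = J.image (fun i : ℕ => ((psi i : ℤ) : ZMod m)) := by
    ext x
    constructor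
    · intro hx
      obtain ⟨i, hi, rfl⟩ := mem_image.1 (hT hx)
      exact mem_image.2 ⟨i, mem_filter.2 ⟨hi, hx⟩, rfl⟩
    · intro hx
      obtain ⟨i, hi, rfl⟩ := mem_image.1 hx
      exact (mem_filter.1 hi).2
  have hJI : J ⊆ Icc 1 c := filter_subset _ _
  have hJne : J.Nonempty := by
    rw [h1] at hne
    exact hne.of_image
  have h2 : ∑ x ∈ T, x = ((∑ i ∈ J, psi i : ℤ) : ZMod m) := by
    rw [h1, sum_image (fun i hi j hj h => inj hc hm (hJI hi) (hJI hj) h)]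
    push_cast
    rfl
  rw [h2]
  obtain ⟨g1, g2, g3⟩ := sum_psi hc hc2 (by omega) hJI hJne
  exact cast_ne g1 g2 g3

lemma S0_card {m c : ℕ} (hc : c * (c + 1) ≤ 2 * m + 2) (hm : 6 ≤ m) : (S0 m c).card = c := by
  unfold S0
  rw [card_image_of_injOn (inj hc hm)]
  simp

lemma one_mem {m c : ℕ} (hc : 1 ≤ c) : (1 : ZMod m) ∈ S0 m c := by
  refine mem_image.2 ⟨1, by simp; omega, ?_⟩
  simp [psi]

/-- for every `m` in `E` there is a realizing set with an element coprime to `m` -/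
theorem unit_realizing {m : ℕ} (hm : m ∈ E) :
    ∃ S : Finset (ZMod m), Realizing S ∧ ∃ a ∈ S, Nat.Coprime a.val m := by
  obtain ⟨h5, hk⟩ := hm
  have : NeZero m := ⟨by omega⟩
  rcases Nat.lt_or_ge m 6 with h6 | h6
  · have : m = 5 := by omega
    subst this
    obtain ⟨S, hS⟩ := exists_realizing 5
    refine ⟨S, hS, ?_⟩
    have h1 : 3 ≤ b 5 := le_b (by norm_num)
    have h2 : S.Nonempty := by
      rw [← card_pos, hS.2, hk]
      omega
    obtain ⟨a, ha⟩ := h2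
    refine ⟨a, ha, ?_⟩
    have h3 : a ≠ 0 := by
      have := hS.1 {a} (by simpa using ha) (by simp)
      simpa using this
    have h4 : a.val ≠ 0 := by
      intro h
      exact h3 ((ZMod.val_eq_zero a).1 h)
    have h6 : a.val < 5 := ZMod.val_lt a
    rw [Nat.coprime_comm]
    exact (Nat.Prime.coprime_iff_not_dvd (by norm_num)).2
      (fun h => by have := Nat.le_of_dvd (by omega) h; omega)
  · have h3 : 3 ≤ b m := le_b (by omega)
    refine ⟨S0 m (b m), ⟨S0_free (b_sq m) (by omega) h6, ?_⟩, 1, one_mem (by omega), ?_⟩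
    · rw [S0_card (b_sq m) h6, hk]
    · haveI : Fact (1 < m) := ⟨by omega⟩
      rw [ZMod.val_one]
      exact Nat.coprime_one_left m

end Pool.Agent.U336.ZS
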