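import Pool.Agent.U336.ZS.Basic

set_option autoImplicit false

/-!
# A verified search for zero-sum-free sets
-/

namespace Pool.Agent.U336.ZS

open Finset

/-- `g n`, with `n` evaluated first -/
def force {α : Type} (n : ℕ) (g : ℕ → α) : α := @Nat.rec (fun _ => α) (g 0) (fun j _ => g (Nat.succ j)) n

lemma force_eq {α : Type} (n : ℕ) (g : ℕ → α) : force n g = g n := by
  cases n <;> rfl

/-- the new set of sums, as a bit mask -/
def upd (m f s : ℕ) : ℕ :=
  Nat.mod (Nat.lor (Nat.lor s (Nat.shiftLeft s (Nat.sub m (Nat.succ f))))
    (Nat.lor (Nat.shiftRight s (Nat.succ f)) (Nat.shiftLeft 1 (Nat.sub m (Nat.succ f))))) (Nat.pow 2 m)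

/-- there is no way to add `d` of the last `fuel` residues, all with the property `g`, to a set with the
sums `s` -/
noncomputable def ok (g : ℕ → Bool) (m : ℕ) (fuel : ℕ) : ℕ → ℕ → Bool :=
  @Nat.rec (fun _ => ℕ → ℕ → Bool) (fun _ d => bif Nat.beq d 0 then false else true)
    (fun f ih s d => bif Nat.beq d 0 then false else bif Nat.ble (Nat.succ (Nat.succ f)) d then true else
      (ih s d) && (bif Nat.beq (Nat.land (Nat.shiftRight s (Nat.succ f)) 1) 1 then true else
        bif g (Nat.sub m (Nat.succ f)) then force (upd m f s) (fun s' => ih s' (Nat.sub d 1)) else true)) fuel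

/-- all residues -/
def anyRes (_ : ℕ) : Bool := true

/-- the residues which are not coprime to `m` -/
def nonUnit (m a : ℕ) : Bool := bif Nat.beq (Nat.gcd a m) 1 then false else true

/-- the bits of `s` are sums of nonempty subsets of `C` -/
def Inv {m : ℕ} (s : ℕ) (C : Finset (ZMod m)) : Prop :=
  ∀ j, s.testBit j = true → ∃ T : Finset (ZMod m), T ⊆ C ∧ T.Nonempty ∧ ∑ x ∈ T, x = (j : ZMod m)

lemma upd_bit {m f s j : ℕ} (h : (upd m f s).testBit j = true) :
    s.testBit j = true ∨ (m - (f + 1) ≤ j ∧ s.testBit (j - (m - (f + 1))) = true) ∨
    s.testBit (f + 1 + j) = true ∨ j = m - (f + 1) := by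
  have h0 : upd m f s = ((s ||| (s <<< (m - (f + 1)))) ||| ((s >>> (f + 1)) ||| (1 <<< (m - (f + 1))))) % 2 ^ m := rfl
  rw [h0, Nat.testBit_mod_two_pow] at h
  simp only [Bool.and_eq_true, Nat.testBit_or, Bool.or_eq_true, Nat.testBit_shiftLeft,
    Nat.testBit_shiftRight, decide_eq_true_eq] at h
  obtain ⟨-, (h1 | h1) | (h1 | h1)⟩ := h
  · exact Or.inl h1
  · exact Or.inr (Or.inl ⟨h1.1, h1.2⟩)
  · exact Or.inr (Or.inr (Or.inl h1))
  · refine Or.inr (Or.inr (Or.inr ?_))
    have h2 := h1.2
    rw [Nat.testBit_one_eq_true_iff_self_eq_zero] at h2
    have := h1.1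
    omega

lemma ok_sound {m : ℕ} [NeZero m] (g : ℕ → Bool) (S : Finset (ZMod m)) (hS : ZeroSumFree S)
    (hg : ∀ x ∈ S, g x.val = true) :
    ∀ fuel s d : ℕ, fuel < m → ok g m fuel s d = true →
      Inv s (S.filter (fun x => x.val < m - fuel)) →
      (S.filter (fun x => m - fuel ≤ x.val)).card < d := by
  intro fuel
  induction fuel with
  | zero =>
    intro s d hf h _
    have hd : d ≠ 0 := by
      rintro rfl
      exact absurd h (by simp [ok])
    have : S.filter (fun x => m - 0 ≤ x.val) = ∅ := by
      rw [filter_eq_empty_iff]
      intro x _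
      have := ZMod.val_lt x
      omega
    rw [this, card_empty]
    omega
  | succ f ih =>
    intro s d hf h hinv
    have hd : d ≠ 0 := by
      rintro rfl
      exact absurd h (by simp [ok])
    have h1 : ok g m (f + 1) s d = (bif Nat.beq d 0 then false else
        bif Nat.ble (Nat.succ (Nat.succ f)) d then true else
        (ok g m f s d) && (bif Nat.beq (Nat.land (Nat.shiftRight s (Nat.succ f)) 1) 1 then true else
          bif g (Nat.sub m (Nat.succ f)) then force (upd m f s) (fun s' => ok g m f s' (Nat.sub d 1))
          else true)) := rfl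
    rw [h1] at h
    have h2 : Nat.beq d 0 = false := by
      rw [← Bool.not_eq_true, Nat.beq_eq]
      exact hd
    rw [h2] at h
    simp only [cond_false] at h
    set a := m - (f + 1) with ha
    have ham : a < m := by omega
    have haf : m - f = a + 1 := by omega
    have hav : ((a : ℕ) : ZMod m).val = a := ZMod.val_natCast_of_lt ham
    -- the elements with value at least `a`
    have hsplit : ∀ x : ZMod m, a ≤ x.val → x = (a : ZMod m) ∨ a + 1 ≤ x.val := by
      intro x hx
      rcases Nat.eq_or_lt_of_le hx with h3 | h3
      · left
        apply ZMod.val_injective m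
        rw [hav, ← h3]
      · right
        exact h3
    by_cases hbig : Nat.ble (Nat.succ (Nat.succ f)) d = true
    · have h3 : f + 2 ≤ d := Nat.le_of_ble_eq_true hbig
      have h4 : (S.filter (fun x => a ≤ x.val)).card ≤ f + 1 := by
        calc (S.filter (fun x => a ≤ x.val)).card
            = ((S.filter (fun x => a ≤ x.val)).image ZMod.val).card :=
              (card_image_of_injective _ (ZMod.val_injective m)).symm
          _ ≤ (Ico a m).card := by
              apply card_le_card
              intro y hy
              obtain ⟨x, hx, rfl⟩ := mem_image.1 hy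
              exact mem_Ico.2 ⟨(mem_filter.1 hx).2, ZMod.val_lt x⟩
          _ = f + 1 := by rw [Nat.card_Ico]; omega
      omega
    · rw [Bool.not_eq_true] at hbig
      rw [hbig] at h
      simp only [cond_false, Bool.and_eq_true] at h
      obtain ⟨hA, hB⟩ := h
      rw [haf] at ih
      by_cases hx : (a : ZMod m) ∈ S
      · -- `a` belongs to `S`
        have hbit : ¬ (s.testBit (f + 1) = true) := by
          intro hb
          obtain ⟨T, hT1, hT2, hT3⟩ := hinv _ hb
          have hxT : (a : ZMod m) ∉ T := by
            intro hxT
            have := (mem_filter.1 (hT1 hxT)).2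
            rw [hav] at this
            omega
          refine hS (insert (a : ZMod m) T) ?_ (insert_nonempty _ _) ?_
          · intro y hy
            rcases mem_insert.1 hy with rfl | hy
            · exact hx
            · exact (mem_filter.1 (hT1 hy)).1
          · rw [sum_insert hxT, hT3]
            have : ((a + (f + 1) : ℕ) : ZMod m) = 0 := by
              rw [show a + (f + 1) = m by omega]
              exact ZMod.natCast_self m
            push_cast at this ⊢
            exact this
        have hbit' : Nat.beq (Nat.land (Nat.shiftRight s (Nat.succ f)) 1) 1 = false := by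
          rw [← Bool.not_eq_true, Nat.beq_eq]
          intro hb
          apply hbit
          rw [Nat.testBit_eq_decide_div_mod_eq]
          have h5 : (s >>> (f + 1)) &&& 1 = 1 := hb
          rw [Nat.and_one_is_mod, Nat.shiftRight_eq_div_pow] at h5
          simpa using h5
        have hga : g (Nat.sub m (Nat.succ f)) = true := by
          have := hg _ hx
          rw [hav] at this
          exact this
        rw [hbit', hga] at hB
        simp only [cond_false, cond_true] at hB
        rw [force_eq] at hB
        have hfil : S.filter (fun x => a ≤ x.val) =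
            insert (a : ZMod m) (S.filter (fun x => a + 1 ≤ x.val)) := by
          ext y
          simp only [mem_filter, mem_insert]
          constructor
          · rintro ⟨hy1, hy2⟩
            rcases hsplit y hy2 with h3 | h3
            · exact Or.inl h3
            · exact Or.inr ⟨hy1, h3⟩
          · rintro (rfl | ⟨hy1, hy2⟩)
            · exact ⟨hx, by rw [hav]⟩
            · exact ⟨hy1, by omega⟩
        have hinv' : Inv (upd m f s) (S.filter (fun x => x.val < a + 1)) := by
          have hmono : S.filter (fun x => x.val < a) ⊆ S.filter (fun x => x.val < a + 1) := by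
            intro y hy
            rw [mem_filter] at hy ⊢
            exact ⟨hy.1, by omega⟩
          have hxC : (a : ZMod m) ∈ S.filter (fun x => x.val < a + 1) :=
            mem_filter.2 ⟨hx, by rw [hav]; omega⟩
          have hadd : ∀ T : Finset (ZMod m), T ⊆ S.filter (fun x => x.val < a) →
              insert (a : ZMod m) T ⊆ S.filter (fun x => x.val < a + 1) ∧
              ∑ x ∈ insert (a : ZMod m) T, x = a + ∑ x ∈ T, x := by
            intro T hT
            have hxT : (a : ZMod m) ∉ T := by
              intro hxT
              have := (mem_filter.1 (hT hxT)).2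
              rw [hav] at this
              omega
            refine ⟨?_, sum_insert hxT⟩
            intro y hy
            rcases mem_insert.1 hy with rfl | hy
            · exact hxC
            · exact hmono (hT hy)
          intro j hj
          rcases upd_bit hj with h5 | ⟨h5, h6⟩ | h5 | h5
          · obtain ⟨T, hT1, hT2, hT3⟩ := hinv j h5
            exact ⟨T, hT1.trans hmono, hT2, hT3⟩
          · rw [← ha] at h5 h6
            obtain ⟨T, hT1, hT2, hT3⟩ := hinv _ h6
            obtain ⟨g1, g2⟩ := hadd T hT1
            refine ⟨_, g1, insert_nonempty _ _, ?_⟩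
            rw [g2, hT3]
            have : ((a + (j - a) : ℕ) : ZMod m) = (j : ZMod m) := by
              congr 1
              omega
            push_cast at this ⊢
            exact this
          · obtain ⟨T, hT1, hT2, hT3⟩ := hinv _ h5
            obtain ⟨g1, g2⟩ := hadd T hT1
            refine ⟨_, g1, insert_nonempty _ _, ?_⟩
            rw [g2, hT3]
            have h7 : ((a + (f + 1 + j) : ℕ) : ZMod m) = ((m + j : ℕ) : ZMod m) := by
              congr 1
              omega
            have h8 : ((m + j : ℕ) : ZMod m) = (j : ZMod m) := by
              push_cast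
              rw [ZMod.natCast_self, zero_add]
            rw [h8] at h7
            push_cast at h7 ⊢
            exact h7
          · rw [← ha] at h5
            refine ⟨{(a : ZMod m)}, singleton_subset_iff.2 hxC, singleton_nonempty _, ?_⟩
            rw [sum_singleton, h5]
        have h6 := ih (upd m f s) (d - 1) (by omega) hB hinv'
        rw [hfil]
        have h7 := card_insert_le (a : ZMod m) (S.filter (fun x => a + 1 ≤ x.val))
        omega
      · -- `a` does not belong to `S`
        have h3 : S.filter (fun x => a ≤ x.val) = S.filter (fun x => a + 1 ≤ x.val) := by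
          apply filter_congr
          intro y hy
          constructor
          · intro h4
            rcases hsplit y h4 with h5 | h5
            · exact absurd (h5 ▸ hy) hx
            · exact h5
          · intro h4
            omega
        have hinv' : Inv s (S.filter (fun x => x.val < a + 1)) := by
          intro j hj
          obtain ⟨T, hT1, hT2, hT3⟩ := hinv j hj
          refine ⟨T, fun y hy => ?_, hT2, hT3⟩
          have := mem_filter.1 (hT1 hy)
          exact mem_filter.2 ⟨this.1, by omega⟩
        rw [h3]
        exact ih s d (by omega) hA hinv'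

/-- the search bounds the size of the zero-sum-free sets with the property `g` -/
theorem card_le_of_ok {m K : ℕ} [NeZero m] (hm : 1 < m) (g : ℕ → Bool)
    (h : ok g m (m - 1) 0 (K + 1) = true)
    (S : Finset (ZMod m)) (hS : ZeroSumFree S) (hg : ∀ x ∈ S, g x.val = true) : S.card ≤ K := by
  have h1 := ok_sound g S hS hg (m - 1) 0 (K + 1) (by omega) h (by
    intro j hj
    simp at hj)
  have h2 : S.filter (fun x => m - (m - 1) ≤ x.val) = S := by
    rw [filter_eq_self]
    intro x hx
    have h3 : x ≠ 0 := by
      have := hS {x} (by simpa using hx) (by simp)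
      simpa using this
    have h4 : x.val ≠ 0 := fun h => h3 ((ZMod.val_eq_zero x).1 h)
    omega
  rw [h2] at h1
  omega

theorem card_le_of_ok_any {m K : ℕ} [NeZero m] (hm : 1 < m)
    (h : ok anyRes m (m - 1) 0 (K + 1) = true)
    (S : Finset (ZMod m)) (hS : ZeroSumFree S) : S.card ≤ K :=
  card_le_of_ok hm anyRes h S hS fun _ _ => rfl

theorem card_le_of_ok_nonUnit {m K : ℕ} [NeZero m] (hm : 1 < m)
    (h : ok (nonUnit m) m (m - 1) 0 (K + 1) = true)
    (S : Finset (ZMod m)) (hS : ZeroSumFree S) (hu : ∀ a ∈ S, ¬ Nat.Coprime a.val m) : S.card ≤ K := by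
  refine card_le_of_ok hm (nonUnit m) h S hS fun x hx => ?_
  have h1 : Nat.beq (Nat.gcd x.val m) 1 = false := by
    rw [← Bool.not_eq_true, Nat.beq_eq]
    exact hu x hx
  unfold nonUnit
  rw [h1]
  rfl

end Pool.Agent.U336.ZS
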