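import Pool.Agent.U336.ZS.Search

set_option autoImplicit false

/-!
# Zero-sum-free sets without units for small moduli
-/

namespace Pool.Agent.U336.ZS

open Finset

/-- `m` belongs to `E` and has a realizing set without elements coprime to `m` -/
def UF (m : ℕ) : Prop :=
  m ∈ E ∧ ∃ S : Finset (ZMod m), Realizing S ∧ ∀ a ∈ S, ¬ Nat.Coprime a.val m

lemma free_of_nat {m : ℕ} (A : Finset ℕ)
    (h : ∀ B ∈ A.powerset, B.Nonempty → ¬ m ∣ ∑ x ∈ B, x) :
    ZeroSumFree (A.image (fun a : ℕ => (a : ZMod m))) := by
  intro T hT hne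
  -- choose preimages
  have hch : ∀ x ∈ T, ∃ a ∈ A, ((a : ℕ) : ZMod m) = x := fun x hx => mem_image.1 (hT hx)
  choose! g hg1 hg2 using hch
  have hinj : Set.InjOn g T := by
    intro x hx y hy hxy
    rw [← hg2 x hx, ← hg2 y hy, hxy]
  have h1 : ∑ x ∈ T, x = ((∑ a ∈ T.image g, a : ℕ) : ZMod m) := by
    rw [sum_image hinj]
    push_cast
    exact sum_congr rfl fun x hx => (hg2 x hx).symm
  rw [h1, Ne, ZMod.natCast_eq_zero_iff]
  refine h _ (mem_powerset.2 ?_) (hne.image g)
  intro a ha
  obtain ⟨x, hx, rfl⟩ := mem_image.1 ha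
  exact hg1 x hx

lemma card_image_nat {m : ℕ} (A : Finset ℕ) (hA : ∀ a ∈ A, a < m) :
    (A.image (fun a : ℕ => (a : ZMod m))).card = A.card := by
  apply card_image_of_injOn
  intro a ha c hc h
  have h1 := congrArg ZMod.val h
  simp only at h1
  rwa [ZMod.val_natCast_of_lt (hA a ha), ZMod.val_natCast_of_lt (hA c hc)] at h1

/-- a modulus with a realizing set without units -/
theorem unitFree_of {m c : ℕ} (hm : 5 ≤ m) (hc : (2 * c + 1) ^ 2 ≤ 8 * m + 9)
    (hc' : 2 * m + 2 < (c + 1) * (c + 2)) (hok : ok anyRes m (m - 1) 0 (c + 1) = true)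
    (A : Finset ℕ) (hA : ∀ a ∈ A, a < m) (hcard : A.card = c)
    (h : ∀ B ∈ A.powerset, B.Nonempty → ¬ m ∣ ∑ x ∈ B, x) (hu : ∀ a ∈ A, ¬ Nat.Coprime a m) : UF m := by
  have : NeZero m := ⟨by omega⟩
  have hf := free_of_nat (m := m) A h
  have hk : k m = c := by
    apply le_antisymm
    · obtain ⟨S, hS⟩ := exists_realizing m
      rw [← hS.2]
      exact card_le_of_ok_any (by omega) hok S hS.1
    · rw [← hcard, ← card_image_nat A hA]
      exact card_le hf
  refine ⟨⟨hm, by rw [hk, b_eq hc hc']⟩, _, ⟨hf, by rw [card_image_nat A hA, hcard, hk]⟩, ?_⟩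
  intro x hx
  obtain ⟨a, ha, rfl⟩ := mem_image.1 hx
  rw [ZMod.val_natCast_of_lt (hA a ha)]
  exact hu a ha

/-- a modulus in `E` without a realizing set without units -/
theorem none_of {m c : ℕ} (hm : 5 ≤ m) (hc1 : 1 ≤ c) (hc : (2 * c + 1) ^ 2 ≤ 8 * m + 9)
    (hc' : 2 * m + 2 < (c + 1) * (c + 2)) (hok : ok (nonUnit m) m (m - 1) 0 c = true) : ¬ UF m := by
  intro h
  obtain ⟨⟨-, hE⟩, S, hS, hu⟩ := h
  have : NeZero m := ⟨by omega⟩
  have h1 : S.card ≤ c - 1 := card_le_of_ok_nonUnit (by omega)
    (by rw [Nat.sub_add_cancel hc1]; exact hok) S hS.1 hu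
  have h2 : S.card = c := by rw [hS.2, hE, b_eq hc hc']
  omega

/-- a modulus which is not in `E` -/
theorem not_E_of {m c : ℕ} (hm : 5 ≤ m) (hc : (2 * c + 1) ^ 2 ≤ 8 * m + 9)
    (hc' : 2 * m + 2 < (c + 1) * (c + 2)) (A : Finset ℕ) (hA : ∀ a ∈ A, a < m) (hcard : A.card = c + 1)
    (h : ∀ B ∈ A.powerset, B.Nonempty → ¬ m ∣ ∑ x ∈ B, x) : m ∉ E := by
  have : NeZero m := ⟨by omega⟩
  intro hE
  have h1 := card_le (free_of_nat (m := m) A h)
  rw [card_image_nat A hA, hcard, hE.2, b_eq hc hc'] at h1
  omega

theorem u12 : UF 12 := unitFree_of (m := 12) (c := 4) (by norm_num) (by norm_num) (by norm_num)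
  (by decide +kernel) {3, 4, 6, 10} (by decide) (by decide) (by decide +kernel) (by decide)

theorem u18 : UF 18 := unitFree_of (m := 18) (c := 5) (by norm_num) (by norm_num) (by norm_num)
  (by decide +kernel) {2, 3, 6, 8, 14} (by decide) (by decide) (by decide +kernel) (by decide)

theorem u24 : UF 24 := unitFree_of (m := 24) (c := 6) (by norm_num) (by norm_num) (by norm_num)
  (by decide +kernel) {2, 6, 8, 9, 20, 21} (by decide) (by decide) (by decide +kernel) (by decide)

theorem u30 : UF 30 := unitFree_of (m := 30) (c := 7) (by norm_num) (by norm_num) (by norm_num)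
  (by decide +kernel) {2, 5, 12, 15, 20, 22, 27} (by decide) (by decide) (by decide +kernel) (by decide)

theorem not42 : 42 ∉ E := not_E_of (m := 42) (c := 8) (by norm_num) (by norm_num) (by norm_num)
  {1, 2, 3, 4, 21, 22, 23, 24, 25} (by decide) (by decide) (by decide +kernel)

theorem n5 : ¬ UF 5 := none_of (m := 5) (c := 3) (by norm_num) (by norm_num) (by norm_num) (by norm_num)
  (by decide +kernel)

theorem n6 : ¬ UF 6 := none_of (m := 6) (c := 3) (by norm_num) (by norm_num) (by norm_num) (by norm_num)
  (by decide +kernel)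

theorem n7 : ¬ UF 7 := none_of (m := 7) (c := 3) (by norm_num) (by norm_num) (by norm_num) (by norm_num)
  (by decide +kernel)

theorem n8 : ¬ UF 8 := none_of (m := 8) (c := 3) (by norm_num) (by norm_num) (by norm_num) (by norm_num)
  (by decide +kernel)

theorem n9 : ¬ UF 9 := none_of (m := 9) (c := 4) (by norm_num) (by norm_num) (by norm_num) (by norm_num)
  (by decide +kernel)

theorem n10 : ¬ UF 10 := none_of (m := 10) (c := 4) (by norm_num) (by norm_num) (by norm_num) (by norm_num)
  (by decide +kernel)

theorem n11 : ¬ UF 11 := none_of (m := 11) (c := 4) (by norm_num) (by norm_num) (by norm_num) (by norm_num)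
  (by decide +kernel)

theorem n13 : ¬ UF 13 := none_of (m := 13) (c := 4) (by norm_num) (by norm_num) (by norm_num) (by norm_num)
  (by decide +kernel)

theorem n14 : ¬ UF 14 := none_of (m := 14) (c := 5) (by norm_num) (by norm_num) (by norm_num) (by norm_num)
  (by decide +kernel)

theorem n15 : ¬ UF 15 := none_of (m := 15) (c := 5) (by norm_num) (by norm_num) (by norm_num) (by norm_num)
  (by decide +kernel)

theorem n16 : ¬ UF 16 := none_of (m := 16) (c := 5) (by norm_num) (by norm_num) (by norm_num) (by norm_num)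
  (by decide +kernel)

theorem n17 : ¬ UF 17 := none_of (m := 17) (c := 5) (by norm_num) (by norm_num) (by norm_num) (by norm_num)
  (by decide +kernel)

theorem n19 : ¬ UF 19 := none_of (m := 19) (c := 5) (by norm_num) (by norm_num) (by norm_num) (by norm_num)
  (by decide +kernel)

theorem n20 : ¬ UF 20 := none_of (m := 20) (c := 6) (by norm_num) (by norm_num) (by norm_num) (by norm_num)
  (by decide +kernel)

theorem n21 : ¬ UF 21 := none_of (m := 21) (c := 6) (by norm_num) (by norm_num) (by norm_num) (by norm_num)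
  (by decide +kernel)

theorem n22 : ¬ UF 22 := none_of (m := 22) (c := 6) (by norm_num) (by norm_num) (by norm_num) (by norm_num)
  (by decide +kernel)

theorem n23 : ¬ UF 23 := none_of (m := 23) (c := 6) (by norm_num) (by norm_num) (by norm_num) (by norm_num)
  (by decide +kernel)

theorem n25 : ¬ UF 25 := none_of (m := 25) (c := 6) (by norm_num) (by norm_num) (by norm_num) (by norm_num)
  (by decide +kernel)

theorem n26 : ¬ UF 26 := none_of (m := 26) (c := 6) (by norm_num) (by norm_num) (by norm_num) (by norm_num)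
  (by decide +kernel)

theorem n27 : ¬ UF 27 := none_of (m := 27) (c := 7) (by norm_num) (by norm_num) (by norm_num) (by norm_num)
  (by decide +kernel)

theorem n28 : ¬ UF 28 := none_of (m := 28) (c := 7) (by norm_num) (by norm_num) (by norm_num) (by norm_num)
  (by decide +kernel)

theorem n29 : ¬ UF 29 := none_of (m := 29) (c := 7) (by norm_num) (by norm_num) (by norm_num) (by norm_num)
  (by decide +kernel)

theorem n31 : ¬ UF 31 := none_of (m := 31) (c := 7) (by norm_num) (by norm_num) (by norm_num) (by norm_num)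
  (by decide +kernel)

theorem n32 : ¬ UF 32 := none_of (m := 32) (c := 7) (by norm_num) (by norm_num) (by norm_num) (by norm_num)
  (by decide +kernel)

theorem n33 : ¬ UF 33 := none_of (m := 33) (c := 7) (by norm_num) (by norm_num) (by norm_num) (by norm_num)
  (by decide +kernel)

theorem n34 : ¬ UF 34 := none_of (m := 34) (c := 7) (by norm_num) (by norm_num) (by norm_num) (by norm_num)
  (by decide +kernel)

theorem n35 : ¬ UF 35 := none_of (m := 35) (c := 8) (by norm_num) (by norm_num) (by norm_num) (by norm_num)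
  (by decide +kernel)

theorem n36 : ¬ UF 36 := none_of (m := 36) (c := 8) (by norm_num) (by norm_num) (by norm_num) (by norm_num)
  (by decide +kernel)

theorem n37 : ¬ UF 37 := none_of (m := 37) (c := 8) (by norm_num) (by norm_num) (by norm_num) (by norm_num)
  (by decide +kernel)

theorem n38 : ¬ UF 38 := none_of (m := 38) (c := 8) (by norm_num) (by norm_num) (by norm_num) (by norm_num)
  (by decide +kernel)

theorem n39 : ¬ UF 39 := none_of (m := 39) (c := 8) (by norm_num) (by norm_num) (by norm_num) (by norm_num)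
  (by decide +kernel)

theorem n40 : ¬ UF 40 := none_of (m := 40) (c := 8) (by norm_num) (by norm_num) (by norm_num) (by norm_num)
  (by decide +kernel)

theorem n41 : ¬ UF 41 := none_of (m := 41) (c := 8) (by norm_num) (by norm_num) (by norm_num) (by norm_num)
  (by decide +kernel)

theorem n43 : ¬ UF 43 := none_of (m := 43) (c := 8) (by norm_num) (by norm_num) (by norm_num) (by norm_num)
  (by decide +kernel)

theorem n44 : ¬ UF 44 := none_of (m := 44) (c := 9) (by norm_num) (by norm_num) (by norm_num) (by norm_num)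
  (by decide +kernel)

theorem n45 : ¬ UF 45 := none_of (m := 45) (c := 9) (by norm_num) (by norm_num) (by norm_num) (by norm_num)
  (by decide +kernel)

theorem n46 : ¬ UF 46 := none_of (m := 46) (c := 9) (by norm_num) (by norm_num) (by norm_num) (by norm_num)
  (by decide +kernel)

theorem n47 : ¬ UF 47 := none_of (m := 47) (c := 9) (by norm_num) (by norm_num) (by norm_num) (by norm_num)
  (by decide +kernel)

/-- up to `47`, the elements of `E` with a realizing set without units are `12, 18, 24, 30` -/
theorem small {m : ℕ} (h5 : 5 ≤ m) (hM : m ≤ 47) : UF m ↔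
      m = 12 ∨ m = 18 ∨ m = 24 ∨ m = 30 := by
  constructor
  · intro h
    interval_cases m
    · exact (n5 h).elim
    · exact (n6 h).elim
    · exact (n7 h).elim
    · exact (n8 h).elim
    · exact (n9 h).elim
    · exact (n10 h).elim
    · exact (n11 h).elim
    · simp
    · exact (n13 h).elim
    · exact (n14 h).elim
    · exact (n15 h).elim
    · exact (n16 h).elim
    · exact (n17 h).elim
    · simp
    · exact (n19 h).elim
    · exact (n20 h).elim
    · exact (n21 h).elim
    · exact (n22 h).elim
    · exact (n23 h).elim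
    · simp
    · exact (n25 h).elim
    · exact (n26 h).elim
    · exact (n27 h).elim
    · exact (n28 h).elim
    · exact (n29 h).elim
    · simp
    · exact (n31 h).elim
    · exact (n32 h).elim
    · exact (n33 h).elim
    · exact (n34 h).elim
    · exact (n35 h).elim
    · exact (n36 h).elim
    · exact (n37 h).elim
    · exact (n38 h).elim
    · exact (n39 h).elim
    · exact (n40 h).elim
    · exact (n41 h).elim
    · exact (not42 h.1).elim
    · exact (n43 h).elim
    · exact (n44 h).elim
    · exact (n45 h).elim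
    · exact (n46 h).elim
    · exact (n47 h).elim
  · rintro (rfl | rfl | rfl | rfl)
    · exact u12
    · exact u18
    · exact u24
    · exact u30

end Pool.Agent.U336.ZS
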