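import Pool.Agent.U336.ZS.Table

set_option autoImplicit false

/-!
# Maximum zero-sum-free sets without units for small moduli
-/

namespace Pool.Agent.U336.ZS

open Finset

/-- some zero-sum-free set modulo `m` of the largest size has no element coprime to `m` -/
def MU (m : ℕ) : Prop :=
  ∃ S : Finset (ZMod m), (ZeroSumFree S ∧ ∀ S' : Finset (ZMod m), ZeroSumFree S' → S'.card ≤ S.card) ∧
    ∀ a ∈ S, ¬ Nat.Coprime a.val m

lemma MU_of_UF {m : ℕ} [NeZero m] (h : UF m) : MU m := by
  obtain ⟨-, S, hS, hu⟩ := h
  exact ⟨S, ⟨hS.1, fun S' h' => by rw [hS.2]; exact card_le h'⟩, hu⟩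

theorem not_MU {m c : ℕ} (hm : 1 < m) (hc1 : 1 ≤ c)
    (hlow : ∃ S : Finset (ZMod m), ZeroSumFree S ∧ S.card = c)
    (hok : ok (nonUnit m) m (m - 1) 0 c = true) : ¬ MU m := by
  rintro ⟨S, ⟨hS, hmax⟩, hu⟩
  have : NeZero m := ⟨by omega⟩
  have h1 : S.card ≤ c - 1 := card_le_of_ok_nonUnit hm
    (by rw [Nat.sub_add_cancel hc1]; exact hok) S hS hu
  obtain ⟨S', h2, h3⟩ := hlow
  have h4 := hmax S' h2
  omega

lemma low0 {m c : ℕ} (hc : c * (c + 1) ≤ 2 * m + 2) (hc2 : 2 ≤ c) (hm : 6 ≤ m) :
    ∃ S : Finset (ZMod m), ZeroSumFree S ∧ S.card = c :=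
  ⟨S0 m c, S0_free hc hc2 hm, S0_card hc hm⟩

lemma lowA {m c : ℕ} (A : Finset ℕ) (hA : ∀ a ∈ A, a < m) (hcard : A.card = c)
    (h : ∀ B ∈ A.powerset, B.Nonempty → ¬ m ∣ ∑ x ∈ B, x) :
    ∃ S : Finset (ZMod m), ZeroSumFree S ∧ S.card = c :=
  ⟨_, free_of_nat (m := m) A h, by rw [card_image_nat A hA, hcard]⟩

theorem q2 : ¬ MU 2 := not_MU (c := 1) (by norm_num) (by norm_num)
  (lowA {1} (by decide) (by decide) (by decide)) (by decide +kernel)

theorem q3 : ¬ MU 3 := not_MU (c := 1) (by norm_num) (by norm_num)
  (lowA {1} (by decide) (by decide) (by decide)) (by decide +kernel)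

theorem q4 : ¬ MU 4 := not_MU (c := 2) (by norm_num) (by norm_num)
  (lowA {1, 2} (by decide) (by decide) (by decide)) (by decide +kernel)

theorem q5 : ¬ MU 5 := not_MU (c := 1) (by norm_num) (by norm_num)
  (lowA {1} (by decide) (by decide) (by decide)) (by decide +kernel)

theorem q42 : ¬ MU 42 := not_MU (c := 9) (by norm_num) (by norm_num)
  (lowA {1, 2, 3, 4, 21, 22, 23, 24, 25} (by decide) (by decide) (by decide +kernel)) (by decide +kernel)

theorem q6 : ¬ MU 6 := not_MU (c := 3) (by norm_num) (by norm_num)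
  (low0 (by norm_num) (by norm_num) (by norm_num)) (by decide +kernel)

theorem q7 : ¬ MU 7 := not_MU (c := 3) (by norm_num) (by norm_num)
  (low0 (by norm_num) (by norm_num) (by norm_num)) (by decide +kernel)

theorem q8 : ¬ MU 8 := not_MU (c := 3) (by norm_num) (by norm_num)
  (low0 (by norm_num) (by norm_num) (by norm_num)) (by decide +kernel)

theorem q9 : ¬ MU 9 := not_MU (c := 4) (by norm_num) (by norm_num)
  (low0 (by norm_num) (by norm_num) (by norm_num)) (by decide +kernel)

theorem q10 : ¬ MU 10 := not_MU (c := 4) (by norm_num) (by norm_num)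
  (low0 (by norm_num) (by norm_num) (by norm_num)) (by decide +kernel)

theorem q11 : ¬ MU 11 := not_MU (c := 4) (by norm_num) (by norm_num)
  (low0 (by norm_num) (by norm_num) (by norm_num)) (by decide +kernel)

theorem q13 : ¬ MU 13 := not_MU (c := 4) (by norm_num) (by norm_num)
  (low0 (by norm_num) (by norm_num) (by norm_num)) (by decide +kernel)

theorem q14 : ¬ MU 14 := not_MU (c := 5) (by norm_num) (by norm_num)
  (low0 (by norm_num) (by norm_num) (by norm_num)) (by decide +kernel)

theorem q15 : ¬ MU 15 := not_MU (c := 5) (by norm_num) (by norm_num)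
  (low0 (by norm_num) (by norm_num) (by norm_num)) (by decide +kernel)

theorem q16 : ¬ MU 16 := not_MU (c := 5) (by norm_num) (by norm_num)
  (low0 (by norm_num) (by norm_num) (by norm_num)) (by decide +kernel)

theorem q17 : ¬ MU 17 := not_MU (c := 5) (by norm_num) (by norm_num)
  (low0 (by norm_num) (by norm_num) (by norm_num)) (by decide +kernel)

theorem q19 : ¬ MU 19 := not_MU (c := 5) (by norm_num) (by norm_num)
  (low0 (by norm_num) (by norm_num) (by norm_num)) (by decide +kernel)

theorem q20 : ¬ MU 20 := not_MU (c := 6) (by norm_num) (by norm_num)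
  (low0 (by norm_num) (by norm_num) (by norm_num)) (by decide +kernel)

theorem q21 : ¬ MU 21 := not_MU (c := 6) (by norm_num) (by norm_num)
  (low0 (by norm_num) (by norm_num) (by norm_num)) (by decide +kernel)

theorem q22 : ¬ MU 22 := not_MU (c := 6) (by norm_num) (by norm_num)
  (low0 (by norm_num) (by norm_num) (by norm_num)) (by decide +kernel)

theorem q23 : ¬ MU 23 := not_MU (c := 6) (by norm_num) (by norm_num)
  (low0 (by norm_num) (by norm_num) (by norm_num)) (by decide +kernel)

theorem q25 : ¬ MU 25 := not_MU (c := 6) (by norm_num) (by norm_num)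
  (low0 (by norm_num) (by norm_num) (by norm_num)) (by decide +kernel)

theorem q26 : ¬ MU 26 := not_MU (c := 6) (by norm_num) (by norm_num)
  (low0 (by norm_num) (by norm_num) (by norm_num)) (by decide +kernel)

theorem q27 : ¬ MU 27 := not_MU (c := 7) (by norm_num) (by norm_num)
  (low0 (by norm_num) (by norm_num) (by norm_num)) (by decide +kernel)

theorem q28 : ¬ MU 28 := not_MU (c := 7) (by norm_num) (by norm_num)
  (low0 (by norm_num) (by norm_num) (by norm_num)) (by decide +kernel)

theorem q29 : ¬ MU 29 := not_MU (c := 7) (by norm_num) (by norm_num)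
  (low0 (by norm_num) (by norm_num) (by norm_num)) (by decide +kernel)

theorem q31 : ¬ MU 31 := not_MU (c := 7) (by norm_num) (by norm_num)
  (low0 (by norm_num) (by norm_num) (by norm_num)) (by decide +kernel)

theorem q32 : ¬ MU 32 := not_MU (c := 7) (by norm_num) (by norm_num)
  (low0 (by norm_num) (by norm_num) (by norm_num)) (by decide +kernel)

theorem q33 : ¬ MU 33 := not_MU (c := 7) (by norm_num) (by norm_num)
  (low0 (by norm_num) (by norm_num) (by norm_num)) (by decide +kernel)

theorem q34 : ¬ MU 34 := not_MU (c := 7) (by norm_num) (by norm_num)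
  (low0 (by norm_num) (by norm_num) (by norm_num)) (by decide +kernel)

theorem q35 : ¬ MU 35 := not_MU (c := 8) (by norm_num) (by norm_num)
  (low0 (by norm_num) (by norm_num) (by norm_num)) (by decide +kernel)

theorem q36 : ¬ MU 36 := not_MU (c := 8) (by norm_num) (by norm_num)
  (low0 (by norm_num) (by norm_num) (by norm_num)) (by decide +kernel)

theorem q37 : ¬ MU 37 := not_MU (c := 8) (by norm_num) (by norm_num)
  (low0 (by norm_num) (by norm_num) (by norm_num)) (by decide +kernel)

theorem q38 : ¬ MU 38 := not_MU (c := 8) (by norm_num) (by norm_num)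
  (low0 (by norm_num) (by norm_num) (by norm_num)) (by decide +kernel)

theorem q39 : ¬ MU 39 := not_MU (c := 8) (by norm_num) (by norm_num)
  (low0 (by norm_num) (by norm_num) (by norm_num)) (by decide +kernel)

theorem q40 : ¬ MU 40 := not_MU (c := 8) (by norm_num) (by norm_num)
  (low0 (by norm_num) (by norm_num) (by norm_num)) (by decide +kernel)

theorem q41 : ¬ MU 41 := not_MU (c := 8) (by norm_num) (by norm_num)
  (low0 (by norm_num) (by norm_num) (by norm_num)) (by decide +kernel)

theorem q43 : ¬ MU 43 := not_MU (c := 8) (by norm_num) (by norm_num)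
  (low0 (by norm_num) (by norm_num) (by norm_num)) (by decide +kernel)

theorem q44 : ¬ MU 44 := not_MU (c := 9) (by norm_num) (by norm_num)
  (low0 (by norm_num) (by norm_num) (by norm_num)) (by decide +kernel)

theorem q45 : ¬ MU 45 := not_MU (c := 9) (by norm_num) (by norm_num)
  (low0 (by norm_num) (by norm_num) (by norm_num)) (by decide +kernel)

theorem q46 : ¬ MU 46 := not_MU (c := 9) (by norm_num) (by norm_num)
  (low0 (by norm_num) (by norm_num) (by norm_num)) (by decide +kernel)

theorem q47 : ¬ MU 47 := not_MU (c := 9) (by norm_num) (by norm_num)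
  (low0 (by norm_num) (by norm_num) (by norm_num)) (by decide +kernel)

/-- up to `47`, the moduli with a maximum zero-sum-free set without units are `12, 18, 24, 30` -/
theorem small_MU {m : ℕ} (h2 : 2 ≤ m) (hM : m ≤ 47) : MU m ↔ m = 12 ∨ m = 18 ∨ m = 24 ∨ m = 30 := by
  constructor
  · intro h
    interval_cases m
    · exact (q2 h).elim
    · exact (q3 h).elim
    · exact (q4 h).elim
    · exact (q5 h).elim
    · exact (q6 h).elim
    · exact (q7 h).elim
    · exact (q8 h).elim
    · exact (q9 h).elim
    · exact (q10 h).elim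
    · exact (q11 h).elim
    · simp
    · exact (q13 h).elim
    · exact (q14 h).elim
    · exact (q15 h).elim
    · exact (q16 h).elim
    · exact (q17 h).elim
    · simp
    · exact (q19 h).elim
    · exact (q20 h).elim
    · exact (q21 h).elim
    · exact (q22 h).elim
    · exact (q23 h).elim
    · simp
    · exact (q25 h).elim
    · exact (q26 h).elim
    · exact (q27 h).elim
    · exact (q28 h).elim
    · exact (q29 h).elim
    · simp
    · exact (q31 h).elim
    · exact (q32 h).elim
    · exact (q33 h).elim
    · exact (q34 h).elim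
    · exact (q35 h).elim
    · exact (q36 h).elim
    · exact (q37 h).elim
    · exact (q38 h).elim
    · exact (q39 h).elim
    · exact (q40 h).elim
    · exact (q41 h).elim
    · exact (q42 h).elim
    · exact (q43 h).elim
    · exact (q44 h).elim
    · exact (q45 h).elim
    · exact (q46 h).elim
    · exact (q47 h).elim
  · rintro (rfl | rfl | rfl | rfl)
    · exact MU_of_UF u12
    · exact MU_of_UF u18
    · exact MU_of_UF u24
    · exact MU_of_UF u30

end Pool.Agent.U336.ZS
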